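import Pool.Agent.Helper38.IA.StN

/-!
# Project IA, part N (nibble): module NFB (the nibble from the iteration)
-/

set_option autoImplicit false

namespace Pool.Agent.Helper37.IA38

open Finset Pool.Agent.Helper93.IA Pool.Agent.Helper17.IAN Pool.Agent.Helper38.IA

private lemma d1_le {α β : Type} [Fintype α] [Fintype β] [DecidableEq α] [DecidableEq β] {n : ℕ}
    (h : Fintype.card β = n) (A : Finset (α × β)) (a : α) : (d1 A a : ℝ) ≤ n := by
  have h1 := d1_add_m1 A a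
  have h2 : d1 A a ≤ n := by omega
  exact_mod_cast h2

private lemma d2_le {α β : Type} [Fintype α] [Fintype β] [DecidableEq α] [DecidableEq β] {n : ℕ}
    (h : Fintype.card α = n) (A : Finset (α × β)) (b : β) : (d2 A b : ℝ) ≤ n := by
  have h1 := d2_add_m2 A b
  have h2 : d2 A b ≤ n := by omega
  exact_mod_cast h2

theorem hNFB : StNIT → StNIB := by
  rintro ⟨K, hK, hNIT⟩ Λ g hΛ hg
  obtain ⟨t, ht⟩ := exists_pow_lt_of_lt_one (half_pos hg) (by norm_num : (9 / 10 : ℝ) < 1)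
  have hK0 : (0 : ℝ) < 2 * K := by linarith
  have hKt : (0 : ℝ) < (2 * K) ^ t := pow_pos hK0 t
  set δ : ℝ := 3 / 200 / (2 * K) ^ t with hδdef
  have hδ : 0 < δ := by positivity
  have ht1 : (0 : ℝ) < 2 * ((t : ℝ) + 1) := by positivity
  set η : ℝ := min δ (g / (2 * ((t : ℝ) + 1))) with hηdef
  have hη : 0 < η := lt_min hδ (div_pos hg ht1)
  have hηδ : η ≤ δ := min_le_left _ _
  have hηg : η ≤ g / (2 * ((t : ℝ) + 1)) := min_le_right _ _
  have htη : (t : ℝ) * η ≤ g / 2 := by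
    have h1 : (t : ℝ) * η ≤ ((t : ℝ) + 1) * (g / (2 * ((t : ℝ) + 1))) :=
      mul_le_mul (by linarith) hηg hη.le (by positivity)
    have h2 : ((t : ℝ) + 1) * (g / (2 * ((t : ℝ) + 1))) = g / 2 := by
      field_simp
    linarith
  have hsmall : (2 * K) ^ t * (δ + η) ≤ 3 / 100 := by
    have h1 : (2 * K) ^ t * (δ + η) ≤ (2 * K) ^ t * (δ + δ) :=
      mul_le_mul_of_nonneg_left (by linarith) hKt.le
    have h2 : (2 * K) ^ t * (δ + δ) = 3 / 100 := by
      rw [hδdef]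
      field_simp
      norm_num
    linarith
  obtain ⟨n0, hn0⟩ := hNIT t (max Λ 1) η (le_max_right _ _) hη
  refine ⟨δ, n0, hδ, ?_⟩
  intro α β γ _ _ _ _ _ _ n hn hα hβ hγ A B C x hx0 hx1 hsup hlA huA hlB huB hlC huC
  have hRd : Pool.Agent.Helper38.IA.Rd n (max Λ 1) δ x A B C := by
    refine ⟨⟨hα, hβ, hγ, hx0, ?_, huA, huB, huC, ?_, ?_, ?_⟩, hsup, hlA, hlB, hlC⟩
    · intro a b c
      exact (hx1 a b c).trans
        (div_le_div_of_nonneg_right (le_max_left _ _) (Nat.cast_nonneg n))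
    · intro a b c h
      exact hlA a b (hsup a b c h).1
    · intro a b c h
      exact hlB b c (hsup a b c h).2.1
    · intro a b c h
      exact hlC c a (hsup a b c h).2.2
  obtain ⟨P, hP, hA1, hA2, hB1, hB2, hC1, hC2⟩ := hn0 α β γ n δ x A B C hn hδ.le hsmall hRd
  have key : ∀ d e : ℝ, 0 ≤ d → d ≤ n → e ≤ (9 / 10) ^ t * d + t * η * n → e ≤ g * n := by
    intro d e hd hdn he
    have hn' : (0 : ℝ) ≤ n := Nat.cast_nonneg n
    have h1 : (9 / 10 : ℝ) ^ t * d ≤ g / 2 * n := mul_le_mul ht.le hdn hd (by positivity)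
    have h2 : (t : ℝ) * η * n ≤ g / 2 * n := mul_le_mul_of_nonneg_right htη hn'
    linarith
  refine ⟨P, hP, ⟨fun a => ?_, fun b => ?_⟩, ⟨fun b => ?_, fun c => ?_⟩,
    ⟨fun c => ?_, fun a => ?_⟩⟩
  · exact key _ _ (Nat.cast_nonneg _) (d1_le hβ A a) (hA1 a)
  · exact key _ _ (Nat.cast_nonneg _) (d2_le hα A b) (hA2 b)
  · exact key _ _ (Nat.cast_nonneg _) (d1_le hγ B b) (hB1 b)
  · exact key _ _ (Nat.cast_nonneg _) (d2_le hβ B c) (hB2 c)
  · exact key _ _ (Nat.cast_nonneg _) (d1_le hα C c) (hC1 c)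
  · exact key _ _ (Nat.cast_nonneg _) (d2_le hγ C a) (hC2 a)

end Pool.Agent.Helper37.IA38
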